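import Pool.Agent.H23.DF.TargetsW
import Pool.Agent.H90.WM.A

/-!
# (LX) the multiplicative function of the character sum with two characters
-/

set_option autoImplicit false

open Polynomial

namespace Pool.Agent.H90.DF

open Pool.Agent.H23.DF
open Pool.Agent.H90.WM (rv norm_add)

/-- the values of a character at units have absolute value one -/
theorem unit_conj {E : Type} [Field E] [Fintype E] (χ : MulChar E ℂ) {u : E} (hu : u ≠ 0) :
    χ u * (starRingEnd ℂ) (χ u) = 1 := by
  classical
  have h2 : χ u ^ (Fintype.card E - 1) = 1 := by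
    rw [← map_pow, FiniteField.pow_card_sub_one_eq_one _ hu, map_one]
  have h3 : ‖χ u‖ = 1 := Complex.norm_eq_one_of_pow_eq_one h2 (by
    have := Fintype.one_lt_card (α := E)
    omega)
  rw [Complex.mul_conj, Complex.normSq_eq_norm_sq, h3]
  norm_num

theorem pf_LX : V_LX := by
  intro F _ _ χ ψ π x
  refine ⟨⟨?_, ?_⟩, ?_⟩
  · unfold m4
    simp
  · intro g h _ _
    unfold m4
    simp only [eval_mul, map_mul]
    ring
  · intro E _ _ _ y
    have : Module.Finite F E := Module.Finite.of_finite
    have hu : ((-1 : F) ^ (minpoly F y).natDegree) ≠ 0 := pow_ne_zero _ (by norm_num)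
    have h1 := unit_conj χ hu
    have h2 := unit_conj ψ hu
    have h3 : y - algebraMap F E π = y + algebraMap F E (-π) := by
      rw [map_neg, sub_eq_add_neg]
    unfold n4 m4
    rw [h3, norm_add, norm_add, norm_add, norm_add]
    unfold rv
    simp only [map_pow, map_mul, neg_neg] at h1 h2 ⊢
    rw [← mul_pow, ← mul_pow, ← mul_pow]
    congr 1
    linear_combination
      (-(χ (eval (-(x + π)) (minpoly F y)) * (starRingEnd ℂ) (χ (eval (-(x - π)) (minpoly F y))) *
        ((starRingEnd ℂ) (ψ (eval (-π) (minpoly F y))) * ψ (eval π (minpoly F y)))) *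
        (ψ (-1) ^ (minpoly F y).natDegree * (starRingEnd ℂ) (ψ (-1)) ^ (minpoly F y).natDegree)) *
          h1 -
      (χ (eval (-(x + π)) (minpoly F y)) * (starRingEnd ℂ) (χ (eval (-(x - π)) (minpoly F y))) *
        ((starRingEnd ℂ) (ψ (eval (-π) (minpoly F y))) * ψ (eval π (minpoly F y)))) * h2

end Pool.Agent.H90.DF
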