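import Pool.Agent.H90.DF.LX
import Pool.Agent.H90.WM.B

/-!
# (TK) the sum over all characters
-/

set_option autoImplicit false

open Polynomial

namespace Pool.Agent.H90.DF

open Pool.Agent.H23.DF
open Pool.Agent.H23.BG (W_SC)
open Pool.Agent.H90.WM (fixed_mem)

section

variable {E : Type} [Field E]

/-- the polynomial `t ^ n (α (z₀ + 1 / t) ^ n + β)` -/
noncomputable def Rp (z₀ α β : E) (n : ℕ) : E[X] :=
  C (α * z₀ ^ n) * (X + C z₀⁻¹) ^ n + C β * X ^ n

theorem Rp_eval {z₀ : E} (hz : z₀ ≠ 0) (α β : E) (n : ℕ) {t : E} (ht : t ≠ 0) :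
    (Rp z₀ α β n).eval t = t ^ n * (α * (z₀ + t⁻¹) ^ n + β) := by
  unfold Rp
  simp only [eval_add, eval_mul, eval_C, eval_pow, eval_X]
  have h1 : z₀ ^ n * (t + z₀⁻¹) ^ n = t ^ n * (z₀ + t⁻¹) ^ n := by
    rw [← mul_pow, ← mul_pow]
    congr 1
    field_simp
  calc α * z₀ ^ n * (t + z₀⁻¹) ^ n + β * t ^ n = α * (z₀ ^ n * (t + z₀⁻¹) ^ n) + β * t ^ n := by
        ring
    _ = _ := by rw [h1]; ring

theorem Rp_deg_le (z₀ α β : E) (n : ℕ) : (Rp z₀ α β n).natDegree ≤ n := by
  unfold Rp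
  refine (natDegree_add_le _ _).trans (max_le ?_ ?_)
  · refine (natDegree_C_mul_le _ _).trans ?_
    refine (natDegree_pow_le).trans ?_
    have h : (X + C z₀⁻¹ : E[X]).natDegree = 1 := natDegree_X_add_C _
    rw [h, mul_one]
  · exact natDegree_C_mul_X_pow_le _ _

theorem Rp_coeff (z₀ α β : E) (n : ℕ) : (Rp z₀ α β n).coeff n = α * z₀ ^ n + β := by
  unfold Rp
  rw [coeff_add, coeff_C_mul, coeff_C_mul, coeff_X_add_C_pow, coeff_X_pow, if_pos rfl]
  simp

theorem Rp_coeff' {z₀ : E} (α β : E) (n : ℕ) :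
    (Rp z₀ α β (n + 1)).coeff n = α * z₀ ^ (n + 1) * (z₀⁻¹ * ((n + 1 : ℕ) : E)) := by
  unfold Rp
  rw [coeff_add, coeff_C_mul, coeff_C_mul, coeff_X_add_C_pow, coeff_X_pow, if_neg (by omega)]
  simp

theorem Rp_deg (z₀ α β : E) (n : ℕ) (h : α * z₀ ^ n + β ≠ 0) :
    (Rp z₀ α β n).natDegree = n :=
  natDegree_eq_of_le_of_coeff_ne_zero (Rp_deg_le _ _ _ _) (by rwa [Rp_coeff])

theorem Rp_deg' {z₀ : E} (hz : z₀ ≠ 0) (α β : E) (n : ℕ) (hα : α ≠ 0)
    (hn : ((n + 1 : ℕ) : E) ≠ 0) (h : α * z₀ ^ (n + 1) + β = 0) :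
    (Rp z₀ α β (n + 1)).natDegree = n := by
  refine natDegree_eq_of_le_of_coeff_ne_zero ?_ ?_
  · rw [natDegree_le_iff_coeff_eq_zero]
    intro N hN
    rcases Nat.lt_or_ge (n + 1) N with h1 | h1
    · exact coeff_eq_zero_of_natDegree_lt ((Rp_deg_le _ _ _ _).trans_lt h1)
    · have : N = n + 1 := by omega
      rw [this, Rp_coeff, h]
  · rw [Rp_coeff']
    exact mul_ne_zero (mul_ne_zero hα (pow_ne_zero _ hz)) (mul_ne_zero (inv_ne_zero hz) hn)

variable [Fintype E]

theorem norm_le {E : Type} [Field E] [Fintype E] (χ : MulChar E ℂ) (u : E) : ‖χ u‖ ≤ 1 := by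
  by_cases hu : u = 0
  · rw [hu, MulChar.map_zero, norm_zero]
    exact zero_le_one
  · have h := unit_conj χ hu
    rw [Complex.mul_conj, Complex.normSq_eq_norm_sq] at h
    have h1 : ‖χ u‖ ^ 2 = 1 := by exact_mod_cast h
    nlinarith [norm_nonneg (χ u)]

theorem conj_pow (χ : MulChar E ℂ) (hd : 2 ≤ orderOf χ) (u : E) :
    (starRingEnd ℂ) (χ u) = χ (u ^ (orderOf χ - 1)) := by
  have h1 : (starRingEnd ℂ) (χ u) = χ⁻¹ u := MulChar.star_apply' χ u
  have h2 : χ⁻¹ = χ ^ (orderOf χ - 1) := by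
    rw [inv_eq_iff_mul_eq_one, ← pow_succ', Nat.sub_add_cancel (by omega)]
    exact pow_orderOf_eq_one χ
  rw [h1, h2, MulChar.pow_apply' χ (by omega), map_pow]

/-- the zero `z₀` is moved to infinity -/
theorem moved (χ : MulChar E ℂ) (hd : 2 ≤ orderOf χ) (n : ℕ) {z₀ : E} (hz : z₀ ≠ 0)
    (a₁ b₁ a₂ b₂ : E) (h0 : a₁ * z₀ ^ n + b₁ = 0 ∨ a₂ * z₀ ^ n + b₂ = 0) (B : ℝ)
    (hB : ‖∑ t : E, χ ((Rp z₀ a₁ b₁ n * Rp z₀ a₂ b₂ n ^ (orderOf χ - 1)).eval t)‖ ≤ B) :
    ‖∑ z : E, χ (a₁ * z ^ n + b₁) * (starRingEnd ℂ) (χ (a₂ * z ^ n + b₂))‖ ≤ B + 1 := by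
  classical
  set f := Rp z₀ a₁ b₁ n * Rp z₀ a₂ b₂ n ^ (orderOf χ - 1) with hf
  have hterm : ∀ t : E, t ≠ 0 → χ (f.eval t) =
      χ (a₁ * (z₀ + t⁻¹) ^ n + b₁) * (starRingEnd ℂ) (χ (a₂ * (z₀ + t⁻¹) ^ n + b₂)) := by
    intro t ht
    have hc := unit_conj χ (pow_ne_zero n ht)
    rw [hf, eval_mul, eval_pow, map_mul, ← conj_pow χ hd, Rp_eval hz _ _ _ ht,
      Rp_eval hz _ _ _ ht, map_mul, map_mul, map_mul]
    linear_combination (χ (a₁ * (z₀ + t⁻¹) ^ n + b₁) *
      (starRingEnd ℂ) (χ (a₂ * (z₀ + t⁻¹) ^ n + b₂))) * hc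
  have h1 : ∑ z : E, χ (a₁ * z ^ n + b₁) * (starRingEnd ℂ) (χ (a₂ * z ^ n + b₂)) =
      ∑ t ∈ Finset.univ.erase (0 : E), χ (f.eval t) := by
    rw [← Finset.add_sum_erase _ _ (Finset.mem_univ z₀)]
    have h3 : χ (a₁ * z₀ ^ n + b₁) * (starRingEnd ℂ) (χ (a₂ * z₀ ^ n + b₂)) = 0 := by
      rcases h0 with h0 | h0
      · rw [h0, MulChar.map_zero, zero_mul]
      · rw [h0, MulChar.map_zero, map_zero, mul_zero]
    rw [h3, zero_add]
    refine Finset.sum_nbij' (fun z => (z - z₀)⁻¹) (fun t => z₀ + t⁻¹) ?_ ?_ ?_ ?_ ?_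
    · intro z hz'
      rw [Finset.mem_erase] at hz' ⊢
      exact ⟨inv_ne_zero (sub_ne_zero.2 hz'.1), Finset.mem_univ _⟩
    · intro t ht
      rw [Finset.mem_erase] at ht ⊢
      refine ⟨fun h => inv_ne_zero ht.1 ?_, Finset.mem_univ _⟩
      exact left_eq_add.1 h.symm
    · intro z _
      simp
    · intro t _
      simp
    · intro z hz'
      rw [Finset.mem_erase] at hz'
      rw [hterm _ (inv_ne_zero (sub_ne_zero.2 hz'.1))]
      simp
  have h2 : ∑ t ∈ Finset.univ.erase (0 : E), χ (f.eval t) = ∑ t : E, χ (f.eval t) -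
      χ (f.eval 0) := by
    rw [← Finset.add_sum_erase _ _ (Finset.mem_univ (0 : E))]
    ring
  rw [h1, h2]
  refine (norm_sub_le _ _).trans ?_
  have := norm_le χ (f.eval 0)
  linarith

end

/-- the sum over the solutions of `z ^ n (y - π) = y + π` -/
theorem sum_sol {E : Type} [Field E] [Fintype E] [DecidableEq E] (χ : MulChar E ℂ) (π x : E)
    (h2 : (2 : E) ≠ 0) (hπ : π ≠ 0) (w : E) :
    ∑ y : E, (if w * (y - π) = y + π then
      χ (y + (x + π)) * (starRingEnd ℂ) (χ (y + (x - π))) else 0) =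
    if w = 1 then 0 else
      χ ((2 * π + x) * w + -x) * (starRingEnd ℂ) (χ (x * w + (2 * π - x))) := by
  have h2π : 2 * π ≠ 0 := mul_ne_zero h2 hπ
  by_cases hw : w = 1
  · rw [if_pos hw]
    refine Finset.sum_eq_zero fun y _ => ?_
    rw [if_neg]
    intro h
    apply h2π
    rw [hw] at h
    linear_combination -h
  · rw [if_neg hw]
    have hw1 : w - 1 ≠ 0 := sub_ne_zero.2 hw
    rw [Finset.sum_eq_single (π * (w + 1) / (w - 1))]
    · rw [if_pos (by field_simp; ring)]
      have e1 : π * (w + 1) / (w - 1) + (x + π) = (w - 1)⁻¹ * ((2 * π + x) * w + -x) := by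
        field_simp
        ring
      have e2 : π * (w + 1) / (w - 1) + (x - π) = (w - 1)⁻¹ * (x * w + (2 * π - x)) := by
        field_simp
        ring
      have hc := unit_conj χ (inv_ne_zero hw1)
      rw [e1, e2, map_mul, map_mul, map_mul]
      linear_combination (χ ((2 * π + x) * w + -x) *
        (starRingEnd ℂ) (χ (x * w + (2 * π - x)))) * hc
    · intro y _ hy
      rw [if_neg]
      intro h
      apply hy
      rw [eq_div_iff hw1]
      linear_combination h
    · intro h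
      exact absurd (Finset.mem_univ _) h

/-- the sum over all characters is a sum over `z` -/
theorem sum_char (hH9 : V_H9) (F : Type) [Field F] [Fintype F] [Fintype (MulChar F ℂ)]
    (χ : MulChar F ℂ) (π x : F) (h2 : (2 : F) ≠ 0) (hπ : π ≠ 0) (E : Type) [Field E] [Fintype E]
    [Algebra F E] (χ' : MulChar E ℂ) (hN : ∀ x : E, χ' x = χ (Algebra.norm F x)) :
    ‖∑ ψ : MulChar F ℂ, ∑ y : E, n4 χ ψ π x y‖ ≤
      ‖∑ z : E, χ' ((2 * algebraMap F E π + algebraMap F E x) * z ^ (Fintype.card F - 1) +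
        -algebraMap F E x) * (starRingEnd ℂ) (χ' (algebraMap F E x * z ^ (Fintype.card F - 1) +
        (2 * algebraMap F E π - algebraMap F E x)))‖ + Fintype.card F := by
  classical
  set P := algebraMap F E π with hP
  set Xx := algebraMap F E x with hX
  have hP0 : P ≠ 0 := (map_ne_zero_iff _ (algebraMap F E).injective).mpr hπ
  have h2E : (2 : E) ≠ 0 := by
    have : (2 : E) = algebraMap F E 2 := (map_ofNat (algebraMap F E) 2).symm
    rw [this]
    exact (map_ne_zero_iff _ (algebraMap F E).injective).mpr h2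
  set T : E → ℂ := fun z => χ' ((2 * P + Xx) * z ^ (Fintype.card F - 1) + -Xx) *
    (starRingEnd ℂ) (χ' (Xx * z ^ (Fintype.card F - 1) + (2 * P - Xx))) with hT
  have hT1 : ∀ z, ‖T z‖ ≤ 1 := by
    intro z
    rw [hT]
    simp only [norm_mul, RCLike.norm_conj]
    exact mul_le_one₀ (norm_le _ _) (norm_nonneg _) (norm_le _ _)
  have e1 : ∑ ψ : MulChar F ℂ, ∑ y : E, n4 χ ψ π x y =
      ∑ z : E, if z ≠ 0 ∧ z ^ (Fintype.card F - 1) ≠ 1 then T z else 0 := by
    rw [Finset.sum_comm]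
    have h3 : ∀ y : E, ∑ ψ : MulChar F ℂ, n4 χ ψ π x y = ∑ z : E, if z ≠ 0 then
        (if z ^ (Fintype.card F - 1) * (y - P) = y + P then
          χ' (y + (Xx + P)) * (starRingEnd ℂ) (χ' (y + (Xx - P))) else 0) else 0 := by
      intro y
      have h4 : ∑ ψ : MulChar F ℂ, n4 χ ψ π x y =
          χ' (y + (Xx + P)) * (starRingEnd ℂ) (χ' (y + (Xx - P))) *
          ∑ ψ : MulChar F ℂ, (starRingEnd ℂ) (ψ (Algebra.norm F (y + P))) *
            ψ (Algebra.norm F (y - P)) := by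
        rw [Finset.mul_sum]
        refine Finset.sum_congr rfl fun ψ _ => ?_
        have ha : algebraMap F E (x + π) = Xx + P := map_add _ _ _
        have hb : algebraMap F E (x - π) = Xx - P := map_sub _ _ _
        unfold n4
        rw [hN, hN, ha, hb]
      have h5 : ∑ ψ : MulChar F ℂ, (starRingEnd ℂ) (ψ (Algebra.norm F (y + P))) *
            ψ (Algebra.norm F (y - P)) =
          ∑ z : E, if z ≠ 0 ∧ z ^ (Fintype.card F - 1) * (y - P) = y + P then (1 : ℂ) else 0 := by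
        rw [← Finset.sum_filter, Finset.sum_const, nsmul_eq_mul, mul_one]
        by_cases hy : y - P = 0
        · have h6 : ∀ ψ : MulChar F ℂ, (starRingEnd ℂ) (ψ (Algebra.norm F (y + P))) *
              ψ (Algebra.norm F (y - P)) = 0 := by
            intro ψ
            rw [hy, Algebra.norm_zero, MulChar.map_zero, mul_zero]
          rw [Finset.sum_eq_zero fun ψ _ => h6 ψ]
          have h7 : (Finset.univ.filter fun z : E => z ≠ 0 ∧
              z ^ (Fintype.card F - 1) * (y - P) = y + P) = ∅ := by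
            rw [Finset.filter_eq_empty_iff]
            rintro z _ ⟨_, h8⟩
            rw [hy, mul_zero] at h8
            apply mul_ne_zero h2E hP0
            linear_combination -h8 - hy
          rw [h7]
          simp
        · rw [hH9 F E (y + P) (y - P) hy]
          congr 1
          rw [Nat.card_eq_fintype_card, Fintype.card_subtype]
      rw [h4, h5, Finset.mul_sum]
      refine Finset.sum_congr rfl fun z _ => ?_
      by_cases hz : z ≠ 0
      · by_cases hw : z ^ (Fintype.card F - 1) * (y - P) = y + P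
        · rw [if_pos ⟨hz, hw⟩, if_pos hz, if_pos hw, mul_one]
        · rw [if_neg fun h => hw h.2, if_pos hz, if_neg hw, mul_zero]
      · rw [if_neg fun h => hz h.1, if_neg hz, mul_zero]
    rw [Finset.sum_congr rfl fun y _ => h3 y, Finset.sum_comm]
    refine Finset.sum_congr rfl fun z _ => ?_
    by_cases hz : z ≠ 0
    · simp only [if_pos hz]
      rw [sum_sol χ' P Xx h2E hP0]
      by_cases hw : z ^ (Fintype.card F - 1) = 1
      · rw [if_pos hw, if_neg fun h => h.2 hw]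
      · rw [if_neg hw, if_pos ⟨hz, hw⟩]
    · simp only [if_neg hz]
      rw [Finset.sum_const_zero, if_neg fun h => hz h.1]
  have e2 : ∑ z : E, T z = (∑ z : E, if z ≠ 0 ∧ z ^ (Fintype.card F - 1) ≠ 1 then T z else 0) +
      ∑ z : E, if z ≠ 0 ∧ z ^ (Fintype.card F - 1) ≠ 1 then 0 else T z := by
    rw [← Finset.sum_add_distrib]
    refine Finset.sum_congr rfl fun z _ => ?_
    split_ifs
    · rw [add_zero]
    · rw [zero_add]
  have e3 : ‖∑ z : E, if z ≠ 0 ∧ z ^ (Fintype.card F - 1) ≠ 1 then 0 else T z‖ ≤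
      Fintype.card F := by
    have h3 : ∑ z : E, (if z ≠ 0 ∧ z ^ (Fintype.card F - 1) ≠ 1 then 0 else T z) =
        ∑ z ∈ Finset.univ.image (algebraMap F E),
          (if z ≠ 0 ∧ z ^ (Fintype.card F - 1) ≠ 1 then 0 else T z) := by
      symm
      refine Finset.sum_subset (Finset.subset_univ _) fun z _ hz => ?_
      rw [if_pos]
      rw [Finset.mem_image] at hz
      have h4 : z ^ Fintype.card F ≠ z := by
        intro h5
        obtain ⟨c, hc⟩ := fixed_mem (F := F) z h5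
        exact hz ⟨c, Finset.mem_univ _, hc⟩
      have h6 : z ^ Fintype.card F = z ^ (Fintype.card F - 1) * z := by
        rw [← pow_succ, Nat.sub_add_cancel Fintype.card_pos]
      refine ⟨fun h7 => h4 ?_, fun h7 => h4 ?_⟩
      · rw [h7, zero_pow Fintype.card_ne_zero]
      · rw [h6, h7, one_mul]
    rw [h3]
    refine (norm_sum_le _ _).trans ?_
    have h4 : ∀ z ∈ Finset.univ.image (algebraMap F E),
        ‖(if z ≠ 0 ∧ z ^ (Fintype.card F - 1) ≠ 1 then 0 else T z)‖ ≤ 1 := by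
      intro z _
      split_ifs
      · rw [norm_zero]; exact zero_le_one
      · exact hT1 z
    refine (Finset.sum_le_sum h4).trans ?_
    rw [Finset.sum_const, nsmul_eq_mul, mul_one]
    have h5 := Finset.card_image_le (s := (Finset.univ : Finset F)) (f := algebraMap F E)
    rw [Finset.card_univ] at h5
    exact_mod_cast h5
  have e4 : ∑ ψ : MulChar F ℂ, ∑ y : E, n4 χ ψ π x y = ∑ z : E, T z -
      ∑ z : E, if z ≠ 0 ∧ z ^ (Fintype.card F - 1) ≠ 1 then 0 else T z := by
    rw [e1, e2]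
    ring
  rw [e4]
  exact (norm_sub_le _ _).trans (by linarith)

theorem pf_TK (hH9 : V_H9) (hSC : W_SC) : V_TK := by
  intro F _ _ _ χ π x hχ h2 hπ hx
  classical
  have hq3 : 3 ≤ Fintype.card F := by
    have h1 : 1 < Fintype.card F := Fintype.one_lt_card
    by_contra hcon
    have h3 : Fintype.card F = 2 := by omega
    have h4 : ((Fintype.card F : ℕ) : F) = 0 := FiniteField.cast_card_eq_zero F
    rw [h3] at h4
    exact h2 (by exact_mod_cast h4)
  obtain ⟨n, hn⟩ : ∃ n, Fintype.card F = n + 2 := ⟨Fintype.card F - 2, by omega⟩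
  have hd0 : 0 < orderOf χ := MulChar.orderOf_pos χ
  have hd1 : orderOf χ ≠ 1 := fun h => hχ (orderOf_eq_one_iff.mp h)
  obtain ⟨e, he⟩ : ∃ e, orderOf χ = e + 2 := ⟨orderOf χ - 2, by omega⟩
  have hcop1 : Nat.Coprime (n + (n + 1) * (e + 1)) (e + 2) := by
    have h3 : (n + (n + 1) * (e + 1)) + 1 = (n + 1) * (e + 2) := by ring
    rw [Nat.coprime_comm]
    have h4 : Nat.Coprime (e + 2) ((n + 1) * (e + 2) - 1) := by
      rw [Nat.coprime_iff_gcd_eq_one]
      have h5 : (e + 2).gcd ((n + 1) * (e + 2) - 1) ∣ 1 := by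
        have h6 := Nat.gcd_dvd_left (e + 2) ((n + 1) * (e + 2) - 1)
        have h7 := Nat.gcd_dvd_right (e + 2) ((n + 1) * (e + 2) - 1)
        have h8 : (e + 2).gcd ((n + 1) * (e + 2) - 1) ∣ (n + 1) * (e + 2) :=
          Dvd.dvd.mul_left h6 _
        have h9 := Nat.dvd_sub h8 h7
        rwa [Nat.sub_sub_self (Nat.mul_pos (by omega) (by omega))] at h9
      exact Nat.dvd_one.1 h5
    rwa [← h3, Nat.add_sub_cancel] at h4
  have hcop2 : Nat.Coprime ((n + 1) + n * (e + 1)) (e + 2) := by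
    have h3 : (n + 1) + n * (e + 1) = n * (e + 2) + 1 := by ring
    rw [h3, mul_comm, Nat.coprime_comm, Nat.coprime_mul_left_add_right]
    exact Nat.coprime_one_right _
  obtain ⟨C₁, hC10, hC1⟩ := hSC (e + 2) (n + (n + 1) * (e + 1)) (by omega) (by nlinarith) hcop1
  obtain ⟨C₂, hC20, hC2⟩ := hSC (e + 2) ((n + 1) + n * (e + 1)) (by omega) (by omega) hcop2
  refine ⟨C₁ + C₂ + 1 + Fintype.card F, n + 1, by positivity, by omega, ?_⟩
  intro E _ _ _ χ' hk hord hN
  have hfin : Module.Finite F E := Module.Finite.of_finite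
  have hord2 : 2 ≤ orderOf χ' := by omega
  have hinj := (algebraMap F E).injective
  have hsq : 1 ≤ Real.sqrt (Fintype.card E) := by
    rw [Real.one_le_sqrt]
    exact_mod_cast Fintype.card_pos
  have hcast : ((n + 1 : ℕ) : E) ≠ 0 := by
    have h3 : ((Fintype.card F : ℕ) : E) = 0 := by
      have h4 : ((Fintype.card F : ℕ) : F) = 0 := FiniteField.cast_card_eq_zero F
      have h5 := congrArg (algebraMap F E) h4
      rwa [map_natCast, map_zero] at h5
    rw [hn] at h3
    intro h4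
    push_cast at h3 h4
    have : (1 : E) = 0 := by linear_combination h3 - h4
    exact one_ne_zero this
  -- roots
  have hroot : ∀ γ : F, γ ≠ 0 → ∃ z : E, z ≠ 0 ∧ z ^ (n + 1) = algebraMap F E γ := by
    intro γ hγ
    have h3 := hH9 F E (algebraMap F E γ) 1 one_ne_zero
    have h4 : Algebra.norm F (algebraMap F E γ) = 1 := by
      rw [Algebra.norm_algebraMap]
      obtain ⟨c, hc⟩ := hk
      rw [hc, pow_mul]
      have h5 : γ ^ (Fintype.card F - 1) = 1 := FiniteField.pow_card_sub_one_eq_one γ hγ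
      rw [hn] at h5
      have h6 : n + 2 - 1 = n + 1 := rfl
      rw [h6] at h5
      rw [h5, one_pow]
    have h5 : ∑ ψ : MulChar F ℂ, (starRingEnd ℂ) (ψ (Algebra.norm F (algebraMap F E γ))) *
        ψ (Algebra.norm F (1 : E)) = (Fintype.card (MulChar F ℂ) : ℂ) := by
      have h6 : ∀ ψ : MulChar F ℂ, (starRingEnd ℂ) (ψ (Algebra.norm F (algebraMap F E γ))) *
          ψ (Algebra.norm F (1 : E)) = 1 := by
        intro ψ
        rw [h4, map_one (Algebra.norm F), map_one ψ, map_one, mul_one]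
      rw [Finset.sum_congr rfl fun ψ _ => h6 ψ, Finset.sum_const, nsmul_eq_mul, mul_one]
      rfl
    rw [h5] at h3
    have h6 : Nat.card {z : E // z ≠ 0 ∧ z ^ (Fintype.card F - 1) * 1 = algebraMap F E γ} ≠ 0 := by
      intro h7
      rw [h7] at h3
      have h8 : (Fintype.card (MulChar F ℂ) : ℕ) = 0 := by exact_mod_cast h3
      have h9 : 0 < Fintype.card (MulChar F ℂ) := Fintype.card_pos_iff.2 ⟨χ⟩
      omega
    obtain ⟨⟨z, hz0, hz⟩⟩ := (Nat.card_ne_zero.1 h6).1
    refine ⟨z, hz0, ?_⟩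
    rw [mul_one, hn] at hz
    exact hz
  refine (sum_char hH9 F χ π x h2 hπ E χ' hN).trans ?_
  set P := algebraMap F E π with hP
  set Xx := algebraMap F E x with hX
  have hP0 : P ≠ 0 := (map_ne_zero_iff _ hinj).mpr hπ
  have hX0 : Xx ≠ 0 := (map_ne_zero_iff _ hinj).mpr hx
  have h2E : (2 : E) ≠ 0 := by
    have : (2 : E) = algebraMap F E 2 := (map_ofNat (algebraMap F E) 2).symm
    rw [this]
    exact (map_ne_zero_iff _ hinj).mpr h2
  have hn1 : Fintype.card F - 1 = n + 1 := by omega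
  rw [hn1]
  have main : ‖∑ z : E, χ' ((2 * P + Xx) * z ^ (n + 1) + -Xx) *
      (starRingEnd ℂ) (χ' (Xx * z ^ (n + 1) + (2 * P - Xx)))‖ ≤
      (C₁ + C₂) * Real.sqrt (Fintype.card E) + 1 := by
    have hord' : orderOf χ' - 1 = e + 1 := by omega
    by_cases hc : 2 * π + x = 0
    · -- the first polynomial is constant
      have hcE : 2 * P + Xx = 0 := by
        have := congrArg (algebraMap F E) hc
        rwa [map_add, map_mul, map_ofNat, map_zero] at this
      obtain ⟨z₀, hz0, hz⟩ := hroot 2 h2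
      rw [map_ofNat] at hz
      have d1 : (Rp z₀ (2 * P + Xx) (-Xx) (n + 1)).natDegree = n + 1 := by
        apply Rp_deg
        rw [hcE, zero_mul, zero_add]
        exact neg_ne_zero.2 hX0
      have h0 : Xx * z₀ ^ (n + 1) + (2 * P - Xx) = 0 := by
        rw [hz]
        linear_combination hcE
      have d2 : (Rp z₀ Xx (2 * P - Xx) (n + 1)).natDegree = n := Rp_deg' hz0 _ _ _ hX0 hcast h0
      have n1 : Rp z₀ (2 * P + Xx) (-Xx) (n + 1) ≠ 0 := by
        intro h; rw [h, natDegree_zero] at d1; omega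
      have n2 : Rp z₀ Xx (2 * P - Xx) (n + 1) ≠ 0 := by
        intro h; rw [h, natDegree_zero] at d2; omega
      refine (moved χ' hord2 (n + 1) hz0 _ _ _ _ (Or.inr h0) (C₂ * Real.sqrt (Fintype.card E))
        ?_).trans ?_
      · refine hC2 E χ' (by omega) _ ?_
        rw [hord', natDegree_mul n1 (pow_ne_zero _ n2), natDegree_pow, d1, d2, mul_comm (e + 1)]
      · nlinarith
    · have hcE : 2 * P + Xx ≠ 0 := by
        have h3 : 2 * P + Xx = algebraMap F E (2 * π + x) := by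
          rw [map_add, map_mul, map_ofNat]
        rw [h3]
        exact (map_ne_zero_iff _ hinj).mpr hc
      obtain ⟨z₀, hz0, hz⟩ := hroot (x / (2 * π + x)) (div_ne_zero hx hc)
      have hz' : (2 * P + Xx) * z₀ ^ (n + 1) = Xx := by
        have h3 : algebraMap F E (2 * π + x) = 2 * P + Xx := by
          rw [map_add, map_mul, map_ofNat]
        rw [hz, map_div₀, h3, ← hX]
        field_simp
      have h0 : (2 * P + Xx) * z₀ ^ (n + 1) + -Xx = 0 := by
        rw [hz']
        ring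
      have d1 : (Rp z₀ (2 * P + Xx) (-Xx) (n + 1)).natDegree = n :=
        Rp_deg' hz0 _ _ _ hcE hcast h0
      have d2 : (Rp z₀ Xx (2 * P - Xx) (n + 1)).natDegree = n + 1 := by
        apply Rp_deg
        intro h3
        have h4 : (2 * P + Xx) * (Xx * z₀ ^ (n + 1) + (2 * P - Xx)) = 4 * P ^ 2 := by
          linear_combination Xx * hz'
        rw [h3, mul_zero] at h4
        have h5 : (4 : E) * P ^ 2 ≠ 0 := by
          have h6 : (4 : E) = 2 * 2 := by norm_num
          rw [h6]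
          exact mul_ne_zero (mul_ne_zero h2E h2E) (pow_ne_zero _ hP0)
        exact h5 h4.symm
      have n1 : Rp z₀ (2 * P + Xx) (-Xx) (n + 1) ≠ 0 := by
        intro h; rw [h, natDegree_zero] at d1; omega
      have n2 : Rp z₀ Xx (2 * P - Xx) (n + 1) ≠ 0 := by
        intro h; rw [h, natDegree_zero] at d2; omega
      refine (moved χ' hord2 (n + 1) hz0 _ _ _ _ (Or.inl h0) (C₁ * Real.sqrt (Fintype.card E))
        ?_).trans ?_
      · refine hC1 E χ' (by omega) _ ?_
        rw [hord', natDegree_mul n1 (pow_ne_zero _ n2), natDegree_pow, d1, d2, mul_comm (e + 1)]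
      · nlinarith
  have hqR : (0 : ℝ) ≤ Fintype.card F := Nat.cast_nonneg _
  nlinarith

end Pool.Agent.H90.DF
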