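import Pool.Agent.H95.DR.Targets

/-!
# The volume
-/

set_option autoImplicit false

open MeasureTheory Set Filter NumberField
open scoped Real nonZeroDivisors Matrix MatrixGroups

namespace Pool.Agent.H90.DF

open Pool.Agent.H31.CN Pool.Agent.H89.FM Pool.Agent.H61.FM Pool.Agent.H89.FC Pool.Agent.H95.FC
open Pool.Agent.H89.DF Pool.Agent.H95.DR

theorem pf_VOLr (hVOC : T_VOC) (hTCB : Pool.Agent.H95.FC.T_TCB) (hUWN : T_UWN) : T_VOLr := by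
  classical
  intro ε hε
  obtain ⟨C₁, hC₁, h1⟩ := hVOC ε hε
  obtain ⟨C₂, hC₂, h2⟩ := hTCB ε hε
  refine ⟨C₁ * C₂, mul_pos hC₁ hC₂, ?_⟩
  intro K _ _ D f σ σ' hRQ hf R
  have hD : (1 : ℝ) ≤ (D : ℝ) := by exact_mod_cast hRQ.pos
  have hf' : (1 : ℝ) ≤ (f : ℝ) := by exact_mod_cast hf
  have hfp : (0 : ℝ) < (f : ℝ) := lt_of_lt_of_le one_pos hf'
  have hDp : (0 : ℝ) < (D : ℝ) := lt_of_lt_of_le one_pos hD
  have hP : 0 < R.P := (hUWN K D f σ σ' hRQ R.η R.un).1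
  -- the number of the lines
  have hJ : (R.J.card : ℝ) ≤ (Fintype.card (ClassGroup (𝓞 K)) : ℝ) * (C₂ * (f : ℝ) ^ (1 + ε)) := by
    have e : R.J.card = ∑ c : ClassGroup (𝓞 K), (R.T c).card := Finset.card_sigma _ _
    rw [e, Nat.cast_sum]
    calc (∑ c : ClassGroup (𝓞 K), ((R.T c).card : ℝ))
        ≤ ∑ _c : ClassGroup (𝓞 K), C₂ * (f : ℝ) ^ (1 + ε) :=
          Finset.sum_le_sum fun c _ => h2 f (R.Q c) (R.T c) (R.W c) hf (R.lt c)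
      _ = _ := by
          rw [Finset.sum_const, nsmul_eq_mul, Finset.card_univ]
  have hn : (0 : ℝ) ≤ (R.n : ℝ) := Nat.cast_nonneg _
  have hpow : (D : ℝ) ^ (1 / 2 + ε) * (f : ℝ) ^ (1 + ε) ≤
      ((D : ℝ) * (f : ℝ) ^ 2) ^ (1 / 2 + ε) := by
    rw [Real.mul_rpow hDp.le (by positivity), ← Real.rpow_natCast, ← Real.rpow_mul hfp.le]
    refine mul_le_mul_of_nonneg_left ?_ (Real.rpow_nonneg hDp.le _)
    refine Real.rpow_le_rpow_of_exponent_le hf' ?_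
    push_cast
    linarith
  have hpf : (0 : ℝ) ≤ (f : ℝ) ^ (1 + ε) := Real.rpow_nonneg hfp.le _
  calc (R.J.card : ℝ) * R.P
      ≤ (Fintype.card (ClassGroup (𝓞 K)) : ℝ) * (C₂ * (f : ℝ) ^ (1 + ε)) * R.P :=
        mul_le_mul_of_nonneg_right hJ hP.le
    _ = (C₂ * (f : ℝ) ^ (1 + ε)) * ((Fintype.card (ClassGroup (𝓞 K)) : ℝ) * R.P) := by ring
    _ ≤ (C₂ * (f : ℝ) ^ (1 + ε)) * (C₁ * R.n * (D : ℝ) ^ (1 / 2 + ε)) :=
        mul_le_mul_of_nonneg_left (h1 K D f σ σ' hRQ hf R) (mul_nonneg hC₂.le hpf)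
    _ = C₁ * C₂ * R.n * ((D : ℝ) ^ (1 / 2 + ε) * (f : ℝ) ^ (1 + ε)) := by ring
    _ ≤ C₁ * C₂ * R.n * ((D : ℝ) * (f : ℝ) ^ 2) ^ (1 / 2 + ε) :=
        mul_le_mul_of_nonneg_left hpow (mul_nonneg (mul_pos hC₁ hC₂).le hn)

end Pool.Agent.H90.DF
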