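import Pool.Agent.H95.DR.Targets

/-!
# The sum over the lines of a class is a sum over the ideals of a class
-/

set_option autoImplicit false

open MeasureTheory Set Filter NumberField
open scoped Real nonZeroDivisors Matrix MatrixGroups

namespace Pool.Agent.H90.DF

open Pool.Agent.H31.CN Pool.Agent.H89.FM Pool.Agent.H61.FM Pool.Agent.H89.FC Pool.Agent.H95.FC
open Pool.Agent.H89.DF Pool.Agent.H95.DR

theorem pf_WCL (hUNW : T_UNW) (hSUMr : T_SUMr) (hTWSr : T_TWSr) (hLC1r : T_LC1r) : T_WCL := by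
  classical
  intro K _ _ D f σ σ' κ ν ψ hRQ hψ R c P m M k C a E hM hk ha hC hE
  have hf : 1 ≤ f := hψ.pos
  have hexp : Complex.exp (((ν * lg σ σ' (R.η : 𝓞 K) : ℝ) : ℂ) * Complex.I) = 1 :=
    (hLC1r K σ σ' f κ ν ψ hψ).2.2 D R.η hRQ R.un
  have hP : (0 : ℝ) < nm P := by
    have h0 : nm P ≠ 0 := by
      have h1 : Ideal.absNorm (P : Ideal (𝓞 K)) ≠ 0 :=
        Ideal.absNorm_ne_zero_of_nonZeroDivisors P
      exact h1
    exact_mod_cast Nat.pos_of_ne_zero h0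
  -- step 1: the lines
  have h1 : ∀ V ∈ R.T c, HasSum (fun v : ℤ × ℤ =>
      if v ∈ lt K (R.α c) (R.β c) ((P : Ideal (𝓞 K)) * R.I c) ∧ (f : ℤ) ∣ det V v ∧
        Wd σ σ' (R.α c) (R.β c) R.η 0 v then
        tyr σ σ' κ ν (lv K (R.α c) (R.β c) v) *
          (fun r : ℝ => kr κ m ν k (r / (M * Real.sqrt D))) |(val (R.Q c) v : ℝ)| else 0)
      (∫ τ in (0 : ℝ)..lg σ σ' (R.η : 𝓞 K), E V τ *
        Complex.exp (-(((ν * τ : ℝ) : ℂ) * Complex.I))) := by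
    intro V hV
    exact hUNW K D f σ σ' hRQ hf (R.I c) (P * R.I c) (R.α c) (R.β c) (R.Q c) (R.b c) R.η V
      (R.ob c) (R.ds c) (R.vb c) R.un κ m ν M k C a (E V) hexp hM hk ha hC (hE V hV)
  -- step 2: all vectors of the window
  have h2 := hSUMr K σ σ' f κ ν ψ (R.I c) (R.α c) (R.β c) (R.Q c) (R.b c) (R.T c) (R.W c) R.η
    (R.ob c) (R.vb c) (R.lt c) hψ (lt K (R.α c) (R.β c) ((P : Ideal (𝓞 K)) * R.I c))
    (fun r : ℝ => kr κ m ν k (r / (M * Real.sqrt D)))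
    (fun V => ∫ τ in (0 : ℝ)..lg σ σ' (R.η : 𝓞 K), E V τ *
        Complex.exp (-(((ν * τ : ℝ) : ℂ) * Complex.I))) h1
  -- step 3: the ideals
  have h2' : HasSum (fun v : ℤ × ℤ =>
      if v ∈ lt K (R.α c) (R.β c) ((P : Ideal (𝓞 K)) * R.I c) ∧
        Wd σ σ' (R.α c) (R.β c) R.η 0 v then
        ψ (R.b c v) * (fun r : ℝ => kr κ m ν k (r * nm P / (M * Real.sqrt D)))
          (|(val (R.Q c) v : ℝ)| / nm P) else 0)
      (∑ V ∈ R.T c, rtr σ σ' κ ν ψ (R.b c) (R.α c) (R.β c) V *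
        ∫ τ in (0 : ℝ)..lg σ σ' (R.η : 𝓞 K), E V τ *
          Complex.exp (-(((ν * τ : ℝ) : ℂ) * Complex.I))) := by
    have e : (fun v : ℤ × ℤ =>
        if v ∈ lt K (R.α c) (R.β c) ((P : Ideal (𝓞 K)) * R.I c) ∧
          Wd σ σ' (R.α c) (R.β c) R.η 0 v then
          ψ (R.b c v) * (fun r : ℝ => kr κ m ν k (r * nm P / (M * Real.sqrt D)))
            (|(val (R.Q c) v : ℝ)| / nm P) else 0) = fun v : ℤ × ℤ =>
        if v ∈ lt K (R.α c) (R.β c) ((P : Ideal (𝓞 K)) * R.I c) ∧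
          Wd σ σ' (R.α c) (R.β c) R.η 0 v then
          ψ (R.b c v) * (fun r : ℝ => kr κ m ν k (r / (M * Real.sqrt D)))
            |(val (R.Q c) v : ℝ)| else 0 := by
      funext v
      simp only [div_mul_cancel₀ _ hP.ne']
    rw [e]
    exact h2
  have h3 := hTWSr K D f σ σ' hRQ (R.I c) P (R.α c) (R.β c) (R.Q c) (R.b c) R.η ψ (R.ob c)
    (R.vb c) R.un hψ.mul (fun r : ℝ => kr κ m ν k (r * nm P / (M * Real.sqrt D))) _ h2'
  rw [R.cl c, div_eq_inv_mul] at h3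
  exact h3

end Pool.Agent.H90.DF
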