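import Pool.Agent.H89.DF.TargetsB

/-!
MP_52e316_nt, board dfx_modules, row LKM: the kernel of weight `2 m`, arbitrary rotation.
-/

set_option autoImplicit false

open MeasureTheory Set Filter Topology
open scoped Real Matrix MatrixGroups
open Pool.Agent.H31.CN Pool.Agent.H89.FM Pool.Agent.H89.FC Pool.Agent.H89.DF

namespace Pool.Agent.H90.DF

/-- polynomials against an exponential -/
lemma pow_exp_bound (K : ℕ) (κ : ℝ) (hκ : 0 < κ) :
    ∃ C : ℝ, 0 ≤ C ∧ ∀ ρ : ℝ, 0 ≤ ρ → (1 + ρ) ^ K * Real.exp (-(κ * ρ)) ≤ C := by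
  refine ⟨K.factorial * Real.exp κ / κ ^ K, by positivity, fun ρ hρ => ?_⟩
  have h1 := Real.pow_div_factorial_le_exp (κ * (1 + ρ)) (by positivity) K
  rw [div_le_iff₀ (by positivity), mul_pow] at h1
  have h2 : Real.exp (κ * (1 + ρ)) * Real.exp (-(κ * ρ)) = Real.exp κ := by
    rw [← Real.exp_add]
    congr 1
    ring
  rw [le_div_iff₀ (by positivity)]
  calc (1 + ρ) ^ K * Real.exp (-(κ * ρ)) * κ ^ K
      = (κ ^ K * (1 + ρ) ^ K) * Real.exp (-(κ * ρ)) := by ring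
    _ ≤ (Real.exp (κ * (1 + ρ)) * K.factorial) * Real.exp (-(κ * ρ)) :=
        mul_le_mul_of_nonneg_right h1 (Real.exp_pos _).le
    _ = K.factorial * (Real.exp (κ * (1 + ρ)) * Real.exp (-(κ * ρ))) := by ring
    _ = _ := by rw [h2]

/-- the function `phm` decays in a sector -/
lemma phm_bound (m : ℕ) (c b : ℝ) (hc : 0 < c) (hb : 0 ≤ b) :
    ∃ C : ℝ, 0 ≤ C ∧ ∀ w : ℂ, w ≠ 0 → c * ‖w‖ ≤ w.re → ‖phm m w‖ ≤ C * ‖w‖ ^ (-b) := by
  obtain ⟨N, hN⟩ := exists_nat_ge b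
  obtain ⟨C, hC, hCb⟩ := pow_exp_bound (2 + m + N) (2 * π * c) (by positivity)
  set A : ℝ := ((m : ℝ) + 2 * π) ^ 2 + (m + 4 * π) with hA
  have hA0 : 0 ≤ A := by positivity
  refine ⟨A * C, by positivity, fun w hw hre => ?_⟩
  set ρ := ‖w‖ with hρ
  have hρ0 : 0 < ρ := norm_pos_iff.2 hw
  have hpi := Real.pi_pos
  have h1 : ‖((m : ℂ) - 2 * π * w) ^ 2 + m - 4 * π * w‖ ≤ A * (1 + ρ) ^ 2 := by
    have q1 : ‖(m : ℂ) - 2 * π * w‖ ≤ (m + 2 * π) * (1 + ρ) := by
      refine (norm_sub_le _ _).trans ?_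
      rw [norm_mul, norm_mul, Complex.norm_natCast, Complex.norm_ofNat, Complex.norm_real,
        Real.norm_of_nonneg hpi.le, ← hρ]
      have : 0 ≤ (m : ℝ) * ρ := by positivity
      nlinarith
    have q2 : ‖(4 : ℂ) * π * w‖ = 4 * π * ρ := by
      rw [norm_mul, norm_mul, Complex.norm_ofNat, Complex.norm_real,
        Real.norm_of_nonneg hpi.le, ← hρ]
    refine (norm_sub_le _ _).trans ?_
    refine (add_le_add (norm_add_le _ _) le_rfl).trans ?_
    rw [norm_pow, q2, Complex.norm_natCast]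
    have q3 : ‖(m : ℂ) - 2 * π * w‖ ^ 2 ≤ ((m + 2 * π) * (1 + ρ)) ^ 2 :=
      pow_le_pow_left₀ (norm_nonneg _) q1 2
    have q4 : (m : ℝ) + 4 * π * ρ ≤ (m + 4 * π) * (1 + ρ) ^ 2 := by
      have h2 : 0 ≤ (m : ℝ) * ρ := by positivity
      have h3 : 0 ≤ (m : ℝ) * ρ ^ 2 := by positivity
      have h4 : 0 ≤ π * ρ ^ 2 := by positivity
      have h5 : 0 ≤ π * ρ := by positivity
      nlinarith
    calc ‖(m : ℂ) - 2 * π * w‖ ^ 2 + m + 4 * π * ρ ≤
        ((m + 2 * π) * (1 + ρ)) ^ 2 + (m + 4 * π) * (1 + ρ) ^ 2 := by linarith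
      _ = A * (1 + ρ) ^ 2 := by
          rw [hA]
          ring
  have h2 : ‖Complex.exp (-(2 * π * w))‖ ≤ Real.exp (-(2 * π * c * ρ)) := by
    rw [Complex.norm_exp]
    refine Real.exp_le_exp.2 ?_
    have e : (-(2 * (π : ℂ) * w)).re = -(2 * π * w.re) := by
      rw [Complex.neg_re]
      congr 1
      have : (2 : ℂ) * (π : ℂ) = ((2 * π : ℝ) : ℂ) := by push_cast; ring
      rw [this, Complex.re_ofReal_mul]
    rw [e]
    have : 2 * π * (c * ρ) ≤ 2 * π * w.re := mul_le_mul_of_nonneg_left hre (by positivity)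
    linarith
  have h3 : ρ ^ b ≤ (1 + ρ) ^ N := by
    calc ρ ^ b ≤ (1 + ρ) ^ b := Real.rpow_le_rpow hρ0.le (by linarith) hb
      _ ≤ (1 + ρ) ^ (N : ℝ) := Real.rpow_le_rpow_of_exponent_le (by linarith) hN
      _ = _ := Real.rpow_natCast _ _
  have h4 : ρ ^ m ≤ (1 + ρ) ^ m := pow_le_pow_left₀ hρ0.le (by linarith) m
  unfold phm
  rw [norm_mul, norm_mul, norm_pow, ← hρ, Real.rpow_neg hρ0.le, ← div_eq_mul_inv,
    le_div_iff₀ (Real.rpow_pos_of_pos hρ0 _)]
  calc ‖((m : ℂ) - 2 * π * w) ^ 2 + m - 4 * π * w‖ * ρ ^ m * ‖Complex.exp (-(2 * π * w))‖ * ρ ^ b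
      ≤ (A * (1 + ρ) ^ 2) * (1 + ρ) ^ m * Real.exp (-(2 * π * c * ρ)) * (1 + ρ) ^ N := by
        gcongr
    _ = A * ((1 + ρ) ^ (2 + m + N) * Real.exp (-(2 * π * c * ρ))) := by
        rw [pow_add, pow_add]
        ring
    _ ≤ A * C := mul_le_mul_of_nonneg_left (hCb ρ hρ0.le) hA0

lemma norm_cpow_bound {z s : ℂ} (hz : z ≠ 0) :
    ‖z ^ s‖ ≤ ‖z‖ ^ s.re * Real.exp (π * |s.im|) := by
  rw [Complex.norm_cpow_of_ne_zero hz, div_eq_mul_inv, ← Real.exp_neg]
  refine mul_le_mul_of_nonneg_left (Real.exp_le_exp.2 ?_) (Real.rpow_nonneg (norm_nonneg _) _)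
  have h1 : -(Complex.arg z * s.im) ≤ |Complex.arg z * s.im| := neg_le_abs _
  rw [abs_mul] at h1
  exact h1.trans (mul_le_mul_of_nonneg_right (Complex.abs_arg_le_pi z) (abs_nonneg _))

/-- the integrand is bounded by `r ^ (-b) u ^ (-2)` -/
lemma Kmi_bound (m : ℕ) (τ s : ℂ) (hτ : ‖τ‖ = 1) (hre : 0 < τ.re) :
    ∃ C : ℝ, 0 ≤ C ∧ ∀ r : ℝ, 0 < r → ∀ u : ℝ, 1 < u →
      ‖Kmi m τ s (r : ℂ) u‖ ≤ C * r ^ (-(|s.re| + 2)) * u ^ (-2 : ℝ) := by
  set b : ℝ := |s.re| + 2 with hb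
  have hb0 : 0 ≤ b := by positivity
  obtain ⟨C, hC, hCb⟩ := phm_bound m τ.re b hre hb0
  set E : ℝ := Real.exp (π * |s.im|) with hE
  have hE0 : 0 < E := Real.exp_pos _
  have hτ0 : τ ≠ 0 := by
    intro h
    rw [h, norm_zero] at hτ
    exact zero_ne_one hτ
  have hinv : (τ⁻¹).re = τ.re := by
    rw [Complex.inv_re, Complex.normSq_eq_norm_sq, hτ]
    norm_num
  have hτi : ‖τ⁻¹‖ = 1 := by rw [norm_inv, hτ, inv_one]
  refine ⟨2 * C * E, by positivity, fun r hr u hu => ?_⟩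
  have hu0 : 0 < u := by linarith
  have hur : 0 < u * r := by positivity
  have key : ∀ (σ a : ℂ), ‖σ‖ = 1 → σ.re = τ.re → a.re ≤ 1 + |s.re| → |a.im| = |s.im| →
      ‖phm m (σ * u * r) * (σ * u) ^ a‖ ≤ C * E * r ^ (-b) * (u * u ^ (-2 : ℝ)) := by
    intro σ a hσ hσr ha ha'
    have hσ0 : σ ≠ 0 := by
      intro h
      rw [h, norm_zero] at hσ
      exact zero_ne_one hσ
    have e1 : σ * u * r = σ * ((u * r : ℝ) : ℂ) := by push_cast; ring
    have hne : σ * u * r ≠ 0 := by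
      rw [e1]
      exact mul_ne_zero hσ0 (by exact_mod_cast hur.ne')
    have hn : ‖σ * u * r‖ = u * r := by
      rw [e1, norm_mul, hσ, one_mul, Complex.norm_real, Real.norm_of_nonneg hur.le]
    have hr1 : (σ * u * r).re = τ.re * (u * r) := by
      rw [e1, Complex.re_mul_ofReal, hσr]
    have h1 := hCb (σ * u * r) hne (by rw [hn, hr1])
    rw [hn, Real.mul_rpow hu0.le hr.le] at h1
    have hne2 : σ * u ≠ 0 := mul_ne_zero hσ0 (by exact_mod_cast hu0.ne')
    have h2 := norm_cpow_bound (s := a) hne2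
    rw [norm_mul, hσ, one_mul, Complex.norm_real, Real.norm_of_nonneg hu0.le, ha', ← hE] at h2
    rw [norm_mul]
    have h3 : u ^ (-b) * u ^ a.re ≤ u * u ^ (-2 : ℝ) := by
      rw [← Real.rpow_add hu0]
      have e : u * u ^ (-2 : ℝ) = u ^ (-1 : ℝ) := by
        nth_rw 1 [← Real.rpow_one u]
        rw [← Real.rpow_add hu0]
        norm_num
      rw [e]
      refine Real.rpow_le_rpow_of_exponent_le hu.le ?_
      rw [hb]
      linarith
    have hrb : 0 ≤ r ^ (-b) := Real.rpow_nonneg hr.le _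
    calc ‖phm m (σ * u * r)‖ * ‖(σ * u) ^ a‖ ≤ (C * (u ^ (-b) * r ^ (-b))) * (u ^ a.re * E) :=
          mul_le_mul h1 h2 (norm_nonneg _) (by positivity)
      _ = C * E * r ^ (-b) * (u ^ (-b) * u ^ a.re) := by ring
      _ ≤ _ := mul_le_mul_of_nonneg_left h3 (by positivity)
  have k1 := key τ s hτ rfl (by linarith [le_abs_self s.re]) rfl
  have k2 := key τ⁻¹ (1 - s) hτi hinv (by
    rw [Complex.sub_re, Complex.one_re]
    linarith [neg_abs_le s.re]) (by
    rw [Complex.sub_im, Complex.one_im, zero_sub, abs_neg])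
  unfold Kmi
  rw [norm_div, Complex.norm_real, Real.norm_of_nonneg hu0.le, div_le_iff₀ hu0]
  refine (norm_add_le _ _).trans ?_
  calc _ ≤ C * E * r ^ (-b) * (u * u ^ (-2 : ℝ)) + C * E * r ^ (-b) * (u * u ^ (-2 : ℝ)) :=
        add_le_add k1 k2
    _ = _ := by ring

lemma phm_cont (m : ℕ) : Continuous (phm m) := by
  unfold phm
  fun_prop

lemma slit {τ : ℂ} (hre : 0 < τ.re) {u : ℝ} (hu : 0 < u) : τ * u ∈ Complex.slitPlane := by
  refine Or.inl ?_
  rw [Complex.re_mul_ofReal]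
  exact mul_pos hre hu

lemma Kmi_cont_u (m : ℕ) (τ s : ℂ) (hτ : ‖τ‖ = 1) (hre : 0 < τ.re) (r : ℂ) :
    ContinuousOn (Kmi m τ s r) (Ioi 1) := by
  have hinv : 0 < (τ⁻¹).re := by
    rw [Complex.inv_re, Complex.normSq_eq_norm_sq, hτ]
    simpa using hre
  intro u hu
  have hu1 : (1 : ℝ) < u := hu
  have hu0 : (0 : ℝ) < u := by linarith
  have huC : (u : ℂ) ≠ 0 := by exact_mod_cast hu0.ne'
  refine ContinuousAt.continuousWithinAt ?_
  have key : ∀ (σ a : ℂ), 0 < σ.re →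
      ContinuousAt (fun u : ℝ => phm m (σ * u * r) * (σ * u) ^ a) u := by
    intro σ a hσ
    have c1 : ContinuousAt (fun u : ℝ => σ * (u : ℂ)) u :=
      (continuous_const.mul Complex.continuous_ofReal).continuousAt
    have c2 : ContinuousAt (fun u : ℝ => phm m (σ * u * r)) u :=
      ((phm_cont m).comp ((continuous_const.mul Complex.continuous_ofReal).mul
        continuous_const)).continuousAt
    refine c2.mul ?_
    exact ContinuousAt.comp (g := fun z : ℂ => z ^ a) (f := fun u : ℝ => σ * (u : ℂ))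
      (continuousAt_cpow_const (slit hσ hu0)) c1
  unfold Kmi
  exact ((key τ s hre).add (key τ⁻¹ (1 - s) hinv)).div Complex.continuous_ofReal.continuousAt huC

lemma Kmi_cont_r (m : ℕ) (τ s : ℂ) (u : ℝ) :
    Continuous (fun r : ℝ => Kmi m τ s (r : ℂ) u) := by
  have key : ∀ (σ a : ℂ), Continuous (fun r : ℝ => phm m (σ * u * r) * (σ * u) ^ a) := by
    intro σ a
    exact ((phm_cont m).comp (continuous_const.mul Complex.continuous_ofReal)).mul
      continuous_const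
  unfold Kmi
  exact ((key τ s).add (key τ⁻¹ (1 - s))).div_const _

theorem pf_KMG : T_KMG := by
  intro m τ s hτ hre
  obtain ⟨C, hC, hb⟩ := Kmi_bound m τ s hτ hre
  set b : ℝ := |s.re| + 2 with hbd
  have hI : IntegrableOn (fun u : ℝ => u ^ (-2 : ℝ)) (Ioi 1) :=
    integrableOn_Ioi_rpow_of_lt (by norm_num) one_pos
  have hI0 : 0 ≤ ∫ u in Ioi (1 : ℝ), u ^ (-2 : ℝ) := by
    refine setIntegral_nonneg measurableSet_Ioi fun u hu => ?_
    exact Real.rpow_nonneg (by linarith [mem_Ioi.1 hu]) _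
  refine ⟨?_, C * ∫ u in Ioi (1 : ℝ), u ^ (-2 : ℝ), b, by positivity, ?_, ?_⟩
  · intro r₀ hr₀
    have hr₀' : 0 < r₀ := hr₀
    refine ContinuousAt.continuousWithinAt ?_
    refine continuousAt_of_dominated (bound := fun u => C * (r₀ / 2) ^ (-b) * u ^ (-2 : ℝ))
      (Eventually.of_forall fun r => ?_) ?_ (hI.const_mul _)
      (Eventually.of_forall fun u => (Kmi_cont_r m τ s u).continuousAt)
    · exact (Kmi_cont_u m τ s hτ hre r).aestronglyMeasurable measurableSet_Ioi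
    · filter_upwards [lt_mem_nhds (show r₀ / 2 < r₀ by linarith)] with r hr
      rw [ae_restrict_iff' measurableSet_Ioi]
      refine Eventually.of_forall fun u hu => ?_
      have hr0 : 0 < r := by linarith
      refine (hb r hr0 u hu).trans ?_
      have h1 : r ^ (-b) ≤ (r₀ / 2) ^ (-b) :=
        Real.rpow_le_rpow_of_nonpos (by linarith) hr.le (by rw [hbd]; linarith [abs_nonneg s.re])
      have h2 : 0 ≤ u ^ (-2 : ℝ) := Real.rpow_nonneg (by linarith [mem_Ioi.1 hu]) _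
      exact mul_le_mul_of_nonneg_right (mul_le_mul_of_nonneg_left h1 hC) h2
  · rw [hbd]
    linarith [abs_nonneg s.re]
  · intro r hr
    unfold Kmc
    refine (norm_integral_le_of_norm_le (g := fun u => C * r ^ (-b) * u ^ (-2 : ℝ))
      (hI.const_mul _) ?_).trans (le_of_eq ?_)
    · rw [ae_restrict_iff' measurableSet_Ioi]
      exact Eventually.of_forall fun u hu => hb r hr u hu
    · rw [integral_const_mul]
      ring

end Pool.Agent.H90.DF
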