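import Pool.Agent.H89.DF.TargetsB

/-!
MP_52e316_nt, board dfx_modules, row LTA: the trigonometric factors.
-/

set_option autoImplicit false

open MeasureTheory Set Filter
open scoped Real Matrix MatrixGroups
open Pool.Agent.H31.CN Pool.Agent.H89.FM Pool.Agent.H89.FC Pool.Agent.H89.DF

namespace Pool.Agent.H90.DF

lemma ur_norm (τ : ℝ) : ‖ur τ‖ = 1 := by
  unfold ur
  exact Complex.norm_exp_ofReal_mul_I _

lemma ur_ne (τ : ℝ) : ur τ ≠ 0 := by
  unfold ur
  exact Complex.exp_ne_zero _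

lemma ur_cont : Continuous ur := by
  unfold ur
  have h : Continuous fun τ : ℝ => 2 * Real.arctan (Real.exp (-τ)) :=
    continuous_const.mul (Real.continuous_arctan.comp (Real.continuous_exp.comp continuous_neg))
  exact Complex.continuous_exp.comp ((Complex.continuous_ofReal.comp h).mul continuous_const)

lemma ur_eq (τ : ℝ) : ur τ = ((Real.sinh τ : ℝ) + Complex.I) / ((Real.cosh τ : ℝ) : ℂ) := by
  have hc : Real.cosh τ ≠ 0 := (Real.cosh_pos τ).ne'
  have ht : 0 < Real.exp (-τ) := Real.exp_pos _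
  set t := Real.exp (-τ) with htd
  have hs : 0 < 1 + t ^ 2 := by positivity
  have h1 : Real.cos (2 * Real.arctan t) = (1 - t ^ 2) / (1 + t ^ 2) := by
    rw [Real.cos_two_mul, Real.cos_arctan, div_pow, Real.sq_sqrt hs.le]
    field_simp
    ring
  have h2 : Real.sin (2 * Real.arctan t) = 2 * t / (1 + t ^ 2) := by
    rw [Real.sin_two_mul, Real.cos_arctan, Real.sin_arctan]
    have hq : Real.sqrt (1 + t ^ 2) ≠ 0 := (Real.sqrt_pos.2 hs).ne'
    field_simp
    rw [Real.sq_sqrt hs.le]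
  have he : t * Real.exp τ = 1 := by
    rw [htd, ← Real.exp_add, neg_add_cancel, Real.exp_zero]
  have h3 : Real.sinh τ / Real.cosh τ = (1 - t ^ 2) / (1 + t ^ 2) := by
    rw [div_eq_div_iff hc hs.ne', Real.sinh_eq, Real.cosh_eq, ← htd]
    have : Real.exp τ = 1 / t := by
      field_simp
      linarith
    rw [this]
    field_simp
  have h4 : 1 / Real.cosh τ = 2 * t / (1 + t ^ 2) := by
    rw [div_eq_div_iff hc hs.ne', Real.cosh_eq, ← htd]
    have : Real.exp τ = 1 / t := by
      field_simp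
      linarith
    rw [this]
    field_simp
  have hcC : ((Real.cosh τ : ℝ) : ℂ) ≠ 0 := by exact_mod_cast hc
  unfold ur
  rw [Complex.exp_mul_I, ← Complex.ofReal_cos, ← Complex.ofReal_sin, ← htd, h1, h2, ← h3, ← h4,
    Complex.ofReal_div, Complex.ofReal_div, Complex.ofReal_one]
  field_simp

lemma ur_inv (τ : ℝ) : (ur τ)⁻¹ = ((Real.sinh τ : ℝ) - Complex.I) / ((Real.cosh τ : ℝ) : ℂ) := by
  have hcC : ((Real.cosh τ : ℝ) : ℂ) ≠ 0 := by exact_mod_cast (Real.cosh_pos τ).ne'
  refine inv_eq_of_mul_eq_one_left ?_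
  rw [ur_eq]
  have h := Real.cosh_sq τ
  have hC : ((Real.cosh τ : ℝ) : ℂ) ^ 2 = ((Real.sinh τ : ℝ) : ℂ) ^ 2 + 1 := by
    exact_mod_cast h
  rw [div_mul_div_comm, div_eq_one_iff_eq (mul_ne_zero hcC hcC), ← pow_two, hC]
  linear_combination (-1 : ℂ) * Complex.I_sq

theorem pf_TRA : T_TRA := by
  refine ⟨ur_eq, ur_norm, ur_cont, fun κ m => ⟨?_, ?_, ?_⟩⟩
  · unfold trr
    refine Continuous.div_const ?_ _
    exact (ur_cont.zpow₀ m fun τ => Or.inl (ur_ne τ)).add
      (continuous_const.mul (ur_cont.zpow₀ (-m) fun τ => Or.inl (ur_ne τ)))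
  · intro τ
    unfold trr
    rw [norm_div, Complex.norm_ofNat, div_le_one (by norm_num)]
    refine (norm_add_le _ _).trans ?_
    rw [norm_mul, norm_pow, norm_neg, norm_one, one_pow, norm_zpow, norm_zpow, ur_norm, one_zpow,
      one_zpow]
    norm_num
  · intro hκ τ
    interval_cases κ
    · unfold trr
      simp
    · unfold trr
      rw [if_neg one_ne_zero, Nat.cast_one, zpow_one, zpow_neg_one, pow_one, ur_inv, ur_eq]
      ring

end Pool.Agent.H90.DF
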